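import Mathlib
import Pool.Agent.H33.DefectDefs

namespace Pool.Agent.Results.MP_4402c4_co.Q1
open Pool.Agent.H33.Defect List Filter Topology

abbrev A := Fin 4

def U : ℕ → List A
  | 0 => [0]
  | k + 1 => U k ++ replicate ((U k).length + 5) 1 ++ replicate ((U k).length + 5) 2 ++
      replicate ((U k).length + 5) 3 ++ U k

lemma len_succ (k : ℕ) : (U (k + 1)).length = 5 * (U k).length + 15 := by
  simp [U]; ring

lemma len_ge (k : ℕ) : k + 1 ≤ (U k).length := by
  induction k with
  | zero => simp [U]
  | succ k ih => rw [len_succ]; omega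

lemma pre {k m : ℕ} (h : k ≤ m) : U k <+: U m := by
  induction m, h using Nat.le_induction with
  | base => exact prefix_rfl
  | succ m _ ih => exact ih.trans (by simp only [U, append_assoc]; exact prefix_append _ _)

def u (n : ℕ) : A := (U n).getD n 0

lemma u_eq (m n : ℕ) (h : n < (U m).length) : u n = (U m)[n] := by
  have h1 : n < (U n).length := len_ge n
  unfold u
  rw [getD_eq_getElem _ _ h1]
  rcases le_total m n with h2 | h2
  · exact ((pre h2).getElem h).symm
  · exact (pre h2).getElem h1

lemma blk_eq (m i n : ℕ) (h : i + n ≤ (U m).length) : blk u i n = ((U m).drop i).take n := by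
  apply List.ext_getElem
  · simp [blk]; omega
  · intro j h1 h2
    simp only [blk, length_map, length_range] at h1
    simp only [blk, getElem_map, getElem_range, getElem_take, getElem_drop]
    exact u_eq m _ (by omega)

lemma occ (m : ℕ) (s w t : List A) (h : s ++ w ++ t = U m) : w = blk u s.length w.length := by
  have hl := congrArg List.length h
  simp only [length_append] at hl
  rw [blk_eq m _ _ (by omega), ← h]; simp

lemma fac_iff (w : List A) : IsFactor u w ↔ ∃ m, w <:+: U m := by
  constructor
  · rintro ⟨i, hi⟩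
    refine ⟨i + w.length, ?_⟩
    rw [hi, blk_eq (i + w.length) _ _ (by have := len_ge (i + w.length); omega)]
    simp only [length_take, length_drop]
    have := len_ge (i + w.length)
    rw [show min w.length ((U (i + w.length)).length - i) = w.length by omega]
    exact (take_prefix _ _).isInfix.trans (drop_suffix _ _).isInfix
  · rintro ⟨m, s, t, h⟩
    exact ⟨_, occ m s w t h⟩

lemma recur : Recurrent u := by
  intro w hw N
  obtain ⟨m, hm⟩ := (fac_iff w).1 hw
  obtain ⟨s, t, h⟩ := hm.trans (pre (le_max_left m N)).isInfix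
  set k := max m N
  refine ⟨_, ?_, occ (k + 1) (U k ++ replicate ((U k).length + 5) 1 ++
    replicate ((U k).length + 5) 2 ++ replicate ((U k).length + 5) 3 ++ s) w t ?_⟩
  · have := len_ge k
    have : N ≤ k := le_max_right m N
    simp only [length_append]; omega
  · rw [U]
    conv_rhs => rw [← h]
    simp only [append_assoc, h]

lemma rep_fac (n : ℕ) (r : A) (hr : r ≠ 0) : IsFactor u (replicate n r) := by
  rw [fac_iff]
  refine ⟨n + 1, ?_⟩
  have h1 : replicate n r <:+: replicate ((U n).length + 5) r := by
    have := len_ge n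
    rw [show (U n).length + 5 = n + ((U n).length + 5 - n) by omega, replicate_add]
    exact (prefix_append _ _).isInfix
  refine h1.trans ?_
  fin_cases r
  · exact absurd rfl hr
  · exact ⟨U n, replicate ((U n).length + 5) 2 ++ replicate ((U n).length + 5) 3 ++ U n,
      by simp [U]⟩
  · exact ⟨U n ++ replicate ((U n).length + 5) 1, replicate ((U n).length + 5) 3 ++ U n,
      by simp [U]⟩
  · exact ⟨U n ++ replicate ((U n).length + 5) 1 ++ replicate ((U n).length + 5) 2, U n,
      by simp [U]⟩

def G (N : ℕ) (V w : List A) : Prop := ∀ v, v <:+: w → v.length = N → v <:+: V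

lemma glue {N : ℕ} {V x y z : List A} (h1 : G N V (x ++ y)) (h2 : G N V (y ++ z))
    (hy : N ≤ y.length) : G N V (x ++ y ++ z) := by
  rintro v ⟨s, t, h⟩ hv
  have hl := congrArg List.length h
  simp only [length_append] at hl
  by_cases hs : s.length + N ≤ x.length + y.length
  · refine h1 v ?_ hv
    have : s ++ v <+: x ++ y := prefix_of_prefix_length_le (h ▸ prefix_append _ _)
      (prefix_append _ _) (by simp only [length_append]; omega)
    exact (suffix_append s v).isInfix.trans this.isInfix
  · refine h2 v ?_ hv
    have e1 : v ++ t <:+ x ++ y ++ z := by rw [← h, append_assoc]; exact suffix_append _ _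
    have e2 : y ++ z <:+ x ++ y ++ z := by rw [append_assoc]; exact suffix_append _ _
    have : v ++ t <:+ y ++ z := suffix_of_suffix_length_le e1 e2
      (by simp only [length_append]; omega)
    exact (prefix_append v t).isInfix.trans this.isInfix

lemma G.mono {N : ℕ} {V w w' : List A} (h : G N V w) (h' : w' <:+: w) : G N V w' :=
  fun v hv hl => h v (hv.trans h') hl

lemma G.rep {N : ℕ} {V : List A} {r : A} (h : G N V (replicate N r)) (M : ℕ) :
    G N V (replicate M r) := by
  intro v hv hl
  have : v = replicate N r := eq_replicate_iff.2 ⟨hl, fun b hb => eq_of_mem_replicate (hv.subset hb)⟩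
  exact h v (this ▸ infix_rfl) hl

lemma G.extR {N M : ℕ} {V x : List A} {r : A} (h : G N V (x ++ replicate N r)) (hM : N ≤ M) :
    G N V (x ++ replicate M r) := by
  have h0 := (h.mono (suffix_append _ _).isInfix).rep M
  rw [show M = N + (M - N) by omega, replicate_add] at h0 ⊢
  rw [← append_assoc]
  exact glue h h0 (by simp)

lemma G.extL {N M : ℕ} {V x : List A} {r : A} (h : G N V (replicate N r ++ x)) (hM : N ≤ M) :
    G N V (replicate M r ++ x) := by
  have h0 := (h.mono (prefix_append _ _).isInfix).rep M
  rw [show M = (M - N) + N by omega, replicate_add] at h0 ⊢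
  exact glue h0 h (by simp)

def V (N k : ℕ) : List A :=
  replicate N 1 ++ replicate N 2 ++ replicate N 3 ++ U k ++ replicate N 1

lemma main (N k : ℕ) (hN : N ≤ (U k).length + 5) (m : ℕ) (hm : k ≤ m) :
    G N (V N k) (replicate N 3 ++ U m ++ replicate N 1) := by
  have hV : G N (V N k) (V N k) := fun v hv _ => hv
  induction m, hm using Nat.le_induction with
  | base => exact hV.mono ⟨replicate N 1 ++ replicate N 2, [], by simp [V]⟩
  | succ m hm ih =>
    have hl : N ≤ (U m).length + 5 := by have := (pre hm).length_le; omega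
    set l := (U m).length + 5
    have a1 := ih.extR hl
    have b : G N (V N k) (replicate l 1 ++ replicate l 2) :=
      ((hV.mono ⟨[], replicate N 3 ++ U k ++ replicate N 1, by simp [V]⟩ :
        G N (V N k) (replicate N 1 ++ replicate N 2)).extL hl).extR hl
    have c : G N (V N k) (replicate l 2 ++ replicate l 3) :=
      ((hV.mono ⟨replicate N 1, U k ++ replicate N 1, by simp [V]⟩ :
        G N (V N k) (replicate N 2 ++ replicate N 3)).extL hl).extR hl
    rw [append_assoc] at ih
    have a2 := ih.extL hl
    have := glue (glue (glue a1 b (by simpa using hl)) c (by simpa using hl)) a2 (by simpa using hl)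
    simpa only [U, append_assoc] using this

lemma fac_V (N k : ℕ) (hN : N ≤ (U k).length + 5) (w : List A) (hw : IsFactor u w)
    (hl : w.length = N) : w <:+: V N k := by
  obtain ⟨m, hm⟩ := (fac_iff w).1 hw
  refine main N k hN (max m k) (le_max_right _ _) w ?_ hl
  exact (hm.trans (pre (le_max_left m k)).isInfix).trans (infix_append _ _ _)

lemma C_le (N k : ℕ) (hN : N ≤ (U k).length + 5) : C u N ≤ 3 * N + (U k).length + 1 := by
  unfold C
  have : {w | IsFactor u w ∧ w.length = N} ⊆
      (((Finset.range (3 * N + (U k).length + 1)).image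
        (fun i => ((V N k).drop i).take N) : Finset (List A)) : Set (List A)) := by
    rintro w ⟨hw, hl⟩
    obtain ⟨s, t, h⟩ := fac_V N k hN w hw hl
    have hh := congrArg List.length h
    simp only [V, length_append, length_replicate] at hh
    simp only [Finset.coe_image, Finset.coe_range, Set.mem_image, Set.mem_Iio]
    refine ⟨s.length, by omega, ?_⟩
    rw [← h, ← hl]; simp
  refine (Set.ncard_le_ncard this (Finset.finite_toSet _)).trans ?_
  rw [Set.ncard_coe_finset]
  exact Finset.card_image_le.trans (by simp)

lemma P_ge (n : ℕ) : 3 ≤ P u (n + 1) := by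
  unfold P
  have hf : {w | IsFactor u w ∧ w.length = n + 1 ∧ w.reverse = w}.Finite :=
    (List.finite_length_eq A (n + 1)).subset fun w hw => hw.2.1
  have hs : ({replicate (n + 1) 1, replicate (n + 1) 2, replicate (n + 1) 3} : Set (List A)) ⊆
      {w | IsFactor u w ∧ w.length = n + 1 ∧ w.reverse = w} := by
    rintro w (rfl | rfl | rfl) <;> exact ⟨rep_fac _ _ (by decide), by simp, by simp⟩
  refine le_trans ?_ (Set.ncard_le_ncard hs hf)
  rw [Set.ncard_eq_three.2 ⟨_, _, _, ?_, ?_, ?_, rfl⟩] <;> simp [replicate_succ]

lemma sum_le (N : ℕ) : ∑ n ∈ Finset.range (N + 1), T u n ≤ C u (N + 1) - 4 * N - 1 := by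
  induction N with
  | zero =>
    have := P_ge 0
    simp only [zero_add, Finset.sum_range_one, T] at this ⊢
    omega
  | succ N ih =>
    rw [Finset.sum_range_succ]
    have h1 := P_ge N
    have h2 := P_ge (N + 1)
    simp only [T] at ih ⊢
    push_cast; omega

lemma neg (k : ℕ) : ∑ n ∈ Finset.range ((U k).length + 5), T u n ≤ -1 := by
  have h1 := sum_le ((U k).length + 4)
  have h2 := C_le ((U k).length + 5) k le_rfl
  rw [show (U k).length + 4 + 1 = (U k).length + 5 from rfl] at h1
  push_cast at h1; omega

lemma defect_nonneg : 0 ≤ defect u := by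
  refine le_trans ?_ (le_iSup (fun n => ((D (blk u 0 n) : ℝ) : EReal)) 0)
  have : {v : List A | v <:+: [] ∧ v.reverse = v} = {[]} := by ext v; simp; rintro rfl; rfl
  have e : D (blk u 0 0) = 0 := by
    have e0 : blk u 0 0 = [] := rfl
    rw [e0, D, this]; simp
  simp [e]

theorem result : ∃ u : ℕ → Fin 4, Recurrent u ∧
    {w | IsFactor u w ∧ w.reverse = w}.Infinite ∧ ¬ ClosedRev u ∧
    ¬ Tendsto (fun N => (((∑ n ∈ Finset.range N, T u n : ℤ) : ℝ) : EReal)) atTop
      (𝓝 (2 * defect u)) := by
  refine ⟨u, recur, ?_, ?_, ?_⟩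
  · refine Set.infinite_of_injective_forall_mem (f := fun n => replicate n (1 : A)) ?_ ?_
    · intro a b h; simpa using congrArg List.length h
    · intro n; exact ⟨rep_fac _ _ (by decide), by simp⟩
  · intro h
    have h1 : IsFactor u [1, 2] := (fac_iff _).2 ⟨1, by decide⟩
    have h2 := fac_V 2 0 (by decide) _ (h _ h1) rfl
    revert h2; decide
  · intro h
    have h0 : ((-1 : ℝ) : EReal) < 2 * defect u :=
      lt_of_lt_of_le (by exact_mod_cast (by norm_num : (-1 : ℝ) < 0))
        (mul_nonneg (by norm_num) defect_nonneg)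
    obtain ⟨k, hk⟩ := eventually_atTop.1 (h.eventually (lt_mem_nhds h0))
    have h1 := hk ((U k).length + 5) (by have := len_ge k; omega)
    have h2 := neg k
    have h3 : (-1 : ℝ) < ((∑ n ∈ Finset.range ((U k).length + 5), T u n : ℤ) : ℝ) := by
      exact_mod_cast h1
    have h4 : (-1 : ℤ) < ∑ n ∈ Finset.range ((U k).length + 5), T u n := by exact_mod_cast h3
    omega

end Pool.Agent.Results.MP_4402c4_co.Q1
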